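import Mathlib

/-!
# Integral domains with common division are not definable by conditional equations (MP_faa006_lc)

Let `R` be the ring of the pairs `(f, g)` of power series over `ℚ` with the same constant term.
Both projections `R → ℚ⟦X⟧` reflect units, so `Enl(R)` is isomorphic to a substructure of
`Enl(ℚ⟦X⟧) × Enl(ℚ⟦X⟧)` and satisfies every conditional equation valid in all integral domains with
common division. But `(X, 0) * (0, X) = 0`.
-/

set_option autoImplicit false

namespace Pool.Agent.Results.MP_faa006_lc.NotDefinable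

/-- Structures of the signature `0, 1, ⊥, -, +, ·, ÷`. -/
structure Str (M : Type) where
  zero : M
  one : M
  bot : M
  neg : M → M
  add : M → M → M
  mul : M → M → M
  div : M → M → M

/-- Isomorphism of structures. -/
def Iso {M M' : Type} (A : Str M) (A' : Str M') : Prop :=
  ∃ e : M ≃ M', e A.zero = A'.zero ∧ e A.one = A'.one ∧ e A.bot = A'.bot ∧
    (∀ x, e (A.neg x) = A'.neg (e x)) ∧ (∀ x y, e (A.add x y) = A'.add (e x) (e y)) ∧
    (∀ x y, e (A.mul x y) = A'.mul (e x) (e y)) ∧ (∀ x y, e (A.div x y) = A'.div (e x) (e y))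

open Classical in
/-- Inverse based common division on `R ∪ {⊥}`; `none` is `⊥`. -/
noncomputable def cdiv {R : Type} [CommRing R] : Option R → Option R → Option R
  | some x, some y => if IsUnit y then some (x * Ring.inverse y) else none
  | _, _ => none

/-- The structure `Enl_⊥(R_÷)` with universe `R ∪ {⊥}`; `none` is `⊥`. -/
noncomputable def Enl (R : Type) [CommRing R] : Str (Option R) where
  zero := some 0
  one := some 1
  bot := none
  neg := Option.map fun x => -x
  add := Option.map₂ fun x y => x + y
  mul := Option.map₂ fun x y => x * y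
  div := cdiv

/-- Commutative rings with common division, up to isomorphism. -/
def IsCR {M : Type} (A : Str M) : Prop := ∃ (R : Type) (_ : CommRing R), Iso A (Enl R)

/-- Integral domains with common division, up to isomorphism. -/
def IsCID {M : Type} (A : Str M) : Prop :=
  ∃ (R : Type) (_ : CommRing R), IsDomain R ∧ Iso A (Enl R)

/-- Terms over the signature, with variables indexed by `ℕ`. -/
inductive Term : Type
  | var : ℕ → Term
  | zero : Term
  | one : Term
  | bot : Term
  | neg : Term → Term
  | add : Term → Term → Term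
  | mul : Term → Term → Term
  | div : Term → Term → Term

/-- The value of a term. -/
def eval {M : Type} (A : Str M) (v : ℕ → M) : Term → M
  | .var n => v n
  | .zero => A.zero
  | .one => A.one
  | .bot => A.bot
  | .neg t => A.neg (eval A v t)
  | .add s t => A.add (eval A v s) (eval A v t)
  | .mul s t => A.mul (eval A v s) (eval A v t)
  | .div s t => A.div (eval A v s) (eval A v t)

/-- Conditional equations `e₁ ∧ ⋯ ∧ eₙ → e`; an equation is a pair of terms. -/
structure CondEq where
  premises : List (Term × Term)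
  conclusion : Term × Term

/-- Validity of a conditional equation in a structure. -/
def Valid {M : Type} (A : Str M) (c : CondEq) : Prop :=
  ∀ v : ℕ → M, (∀ p ∈ c.premises, eval A v p.1 = eval A v p.2) →
    eval A v c.conclusion.1 = eval A v c.conclusion.2

theorem iso_eval {M M' : Type} {A : Str M} {A' : Str M'} (e : M ≃ M')
    (h0 : e A.zero = A'.zero) (h1 : e A.one = A'.one) (hb : e A.bot = A'.bot)
    (hn : ∀ x, e (A.neg x) = A'.neg (e x)) (ha : ∀ x y, e (A.add x y) = A'.add (e x) (e y))
    (hm : ∀ x y, e (A.mul x y) = A'.mul (e x) (e y))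
    (hd : ∀ x y, e (A.div x y) = A'.div (e x) (e y)) (v : ℕ → M) (t : Term) :
    e (eval A v t) = eval A' (fun n => e (v n)) t := by
  induction t with
  | var n => rfl
  | zero => exact h0
  | one => exact h1
  | bot => exact hb
  | neg t ih => rw [eval, eval, hn, ih]
  | add s t ihs iht => rw [eval, eval, ha, ihs, iht]
  | mul s t ihs iht => rw [eval, eval, hm, ihs, iht]
  | div s t ihs iht => rw [eval, eval, hd, ihs, iht]

theorem valid_of_iso {M M' : Type} {A : Str M} {A' : Str M'} (h : Iso A A') (c : CondEq)
    (hc : Valid A' c) : Valid A c := by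
  obtain ⟨e, h0, h1, hb, hn, ha, hm, hd⟩ := h
  intro v hp
  apply e.injective
  have key := iso_eval e h0 h1 hb hn ha hm hd v
  rw [key, key]
  apply hc
  intro p hpm
  rw [← key, ← key, hp p hpm]

theorem Iso.refl {M : Type} (A : Str M) : Iso A A :=
  ⟨Equiv.refl M, rfl, rfl, rfl, fun _ => rfl, fun _ _ => rfl, fun _ _ => rfl, fun _ _ => rfl⟩

theorem map_cdiv {R D : Type} [CommRing R] [CommRing D] (φ : R →+* D)
    (hφ : ∀ x, IsUnit (φ x) → IsUnit x) (x y : Option R) :
    Option.map φ (cdiv x y) = cdiv (Option.map φ x) (Option.map φ y) := by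
  rcases x with _ | x
  · rfl
  rcases y with _ | y
  · rfl
  simp only [cdiv, Option.map_some]
  by_cases h : IsUnit y
  · rw [if_pos h, if_pos (h.map φ), Option.map_some, map_mul]
    congr 2
    obtain ⟨u, rfl⟩ := h
    have h1 : Ring.inverse (u : R) = ((u⁻¹ : Rˣ) : R) := Ring.inverse_unit u
    have h2 : Ring.inverse (φ (u : R)) = φ ((u⁻¹ : Rˣ) : R) := by
      have := Ring.inverse_unit (Units.map (φ : R →* D) u)
      exact this
    rw [h1, h2]
  · rw [if_neg h, if_neg fun h' => h (hφ y h'), Option.map_none]

theorem map_eval {R D : Type} [CommRing R] [CommRing D] (φ : R →+* D)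
    (hφ : ∀ x, IsUnit (φ x) → IsUnit x) (v : ℕ → Option R) (t : Term) :
    Option.map φ (eval (Enl R) v t) = eval (Enl D) (fun n => Option.map φ (v n)) t := by
  induction t with
  | var n => rfl
  | zero => simp [eval, Enl]
  | one => simp [eval, Enl]
  | bot => rfl
  | neg t ih =>
    rw [eval, eval, ← ih]
    cases eval (Enl R) v t <;> simp [Enl]
  | add s t ihs iht =>
    rw [eval, eval, ← ihs, ← iht]
    cases eval (Enl R) v s <;> cases eval (Enl R) v t <;> simp [Enl]
  | mul s t ihs iht =>
    rw [eval, eval, ← ihs, ← iht]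
    cases eval (Enl R) v s <;> cases eval (Enl R) v t <;> simp [Enl]
  | div s t ihs iht =>
    rw [eval, eval, ← ihs, ← iht]
    exact map_cdiv φ hφ _ _

theorem valid_of_two {R D : Type} [CommRing R] [CommRing D] (φ ψ : R →+* D)
    (hφ : ∀ x, IsUnit (φ x) → IsUnit x) (hψ : ∀ x, IsUnit (ψ x) → IsUnit x)
    (hinj : ∀ x y, φ x = φ y → ψ x = ψ y → x = y) (c : CondEq) (hc : Valid (Enl D) c) :
    Valid (Enl R) c := by
  intro v hp
  have h1 : Option.map φ (eval (Enl R) v c.conclusion.1) =
      Option.map φ (eval (Enl R) v c.conclusion.2) := by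
    rw [map_eval φ hφ, map_eval φ hφ]
    apply hc
    intro p hpm
    rw [← map_eval φ hφ, ← map_eval φ hφ, hp p hpm]
  have h2 : Option.map ψ (eval (Enl R) v c.conclusion.1) =
      Option.map ψ (eval (Enl R) v c.conclusion.2) := by
    rw [map_eval ψ hψ, map_eval ψ hψ]
    apply hc
    intro p hpm
    rw [← map_eval ψ hψ, ← map_eval ψ hψ, hp p hpm]
  revert h1 h2
  generalize eval (Enl R) v c.conclusion.1 = a
  generalize eval (Enl R) v c.conclusion.2 = b
  intro h1 h2
  cases a <;> cases b
  · rfl
  · simp at h1
  · simp at h1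
  · simp only [Option.map_some, Option.some.injEq] at h1 h2
    rw [hinj _ _ h1 h2]

/-- The ring of the pairs of power series over `ℚ` with the same constant term. -/
noncomputable abbrev FP : Subring (PowerSeries ℚ × PowerSeries ℚ) :=
  RingHom.eqLocus ((PowerSeries.constantCoeff (R := ℚ)).comp (RingHom.fst _ _))
    ((PowerSeries.constantCoeff (R := ℚ)).comp (RingHom.snd _ _))

theorem mem_FP (p : PowerSeries ℚ × PowerSeries ℚ) :
    p ∈ FP ↔ PowerSeries.constantCoeff p.1 = PowerSeries.constantCoeff p.2 := Iff.rfl

theorem isUnit_FP (x : FP) (h : PowerSeries.constantCoeff (R := ℚ) x.1.1 ≠ 0) : IsUnit x := by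
  have h2 : PowerSeries.constantCoeff (R := ℚ) x.1.2 ≠ 0 := by
    have := (mem_FP x.1).1 x.2
    rwa [← this]
  have m1 : x.1.1 * x.1.1⁻¹ = 1 := PowerSeries.mul_inv_cancel _ h
  have m2 : x.1.2 * x.1.2⁻¹ = 1 := PowerSeries.mul_inv_cancel _ h2
  have hmem : ((x.1.1⁻¹, x.1.2⁻¹) : PowerSeries ℚ × PowerSeries ℚ) ∈ FP := by
    rw [mem_FP]
    simp only [PowerSeries.constantCoeff_inv]
    rw [(mem_FP x.1).1 x.2]
  apply IsUnit.of_mul_eq_one ⟨_, hmem⟩
  apply Subtype.ext
  exact Prod.ext m1 m2

theorem not_domain {M : Type} {A : Str M} (h : Iso A (Enl FP)) : ¬ IsCID A := by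
  rintro ⟨D, _, hD, hI⟩
  obtain ⟨e, e0, _, eb, _, _, em, _⟩ := h
  obtain ⟨f, f0, _, fb, _, _, fm, _⟩ := hI
  -- the composite `Option FP → Option D`
  set g : Option FP ≃ Option D := e.symm.trans f with hg
  have g0 : g (some 0) = some 0 := by
    have : e.symm (some 0) = A.zero := by
      rw [Equiv.symm_apply_eq]; exact e0.symm
    rw [hg, Equiv.trans_apply, this]; exact f0
  have gb : g none = none := by
    have : e.symm none = A.bot := by
      rw [Equiv.symm_apply_eq]; exact eb.symm
    rw [hg, Equiv.trans_apply, this]; exact fb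
  have gm : ∀ x y, g ((Enl FP).mul x y) = (Enl D).mul (g x) (g y) := by
    intro x y
    have : e.symm ((Enl FP).mul x y) = A.mul (e.symm x) (e.symm y) := by
      rw [Equiv.symm_apply_eq, em, Equiv.apply_symm_apply, Equiv.apply_symm_apply]
    rw [hg, Equiv.trans_apply, this, fm]
    rfl
  have hX : (PowerSeries.X : PowerSeries ℚ) ≠ 0 := PowerSeries.X_ne_zero
  set a : FP := ⟨(PowerSeries.X, 0), by rw [mem_FP]; simp⟩ with ha
  set b : FP := ⟨(0, PowerSeries.X), by rw [mem_FP]; simp⟩ with hb
  have ha0 : a ≠ 0 := by
    intro h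
    exact hX (congrArg (fun z : FP => z.1.1) h)
  have hb0 : b ≠ 0 := by
    intro h
    exact hX (congrArg (fun z : FP => z.1.2) h)
  have hab : a * b = 0 := by
    apply Subtype.ext
    apply Prod.ext
    · simp [ha, hb]
    · simp [ha, hb]
  obtain ⟨a', ha'⟩ : ∃ a', g (some a) = some a' := by
    rcases hga : g (some a) with _ | a'
    · rw [← gb] at hga
      exact absurd (g.injective hga) (by simp)
    · exact ⟨a', rfl⟩
  obtain ⟨b', hb'⟩ : ∃ b', g (some b) = some b' := by
    rcases hgb : g (some b) with _ | b'
    · rw [← gb] at hgb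
      exact absurd (g.injective hgb) (by simp)
    · exact ⟨b', rfl⟩
  have hmul : (Enl FP).mul (some a) (some b) = some 0 := by
    change some (a * b) = some 0
    rw [hab]
  have h1 := gm (some a) (some b)
  rw [hmul, g0, ha', hb'] at h1
  have h2 : a' * b' = 0 := by
    have : some (0 : D) = some (a' * b') := h1
    exact (Option.some.inj this).symm
  rcases mul_eq_zero.1 h2 with h3 | h3
  · rw [h3, ← g0] at ha'
    exact ha0 (Option.some.inj (g.injective ha'))
  · rw [h3, ← g0] at hb'
    exact hb0 (Option.some.inj (g.injective hb'))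

/-- There is no set `T` of conditional equations, each valid in every integral domain with common
division, such that a commutative ring with common division is an integral domain with common
division if and only if it satisfies `T`. In fact there is one commutative ring with common
division that is not an integral domain with common division and satisfies every conditional
equation valid in all integral domains with common division. -/
theorem result :
    (¬ ∃ T : Set CondEq,
      (∀ c ∈ T, ∀ (M : Type) (A : Str M), IsCID A → Valid A c) ∧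
      ∀ (M : Type) (A : Str M), IsCR A → (IsCID A ↔ ∀ c ∈ T, Valid A c)) ∧
    ∃ (M : Type) (A : Str M), IsCR A ∧ ¬ IsCID A ∧
      ∀ c : CondEq, (∀ (M' : Type) (A' : Str M'), IsCID A' → Valid A' c) → Valid A c := by
  have key : ∀ c : CondEq, (∀ (M' : Type) (A' : Str M'), IsCID A' → Valid A' c) →
      Valid (Enl FP) c := by
    intro c hc
    have hD : Valid (Enl (PowerSeries ℚ)) c :=
      hc _ _ ⟨PowerSeries ℚ, inferInstance, inferInstance, Iso.refl _⟩
    refine valid_of_two ((RingHom.fst _ _).comp FP.subtype) ((RingHom.snd _ _).comp FP.subtype)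
      ?_ ?_ ?_ c hD
    · intro x hx
      apply isUnit_FP
      exact (hx.map (PowerSeries.constantCoeff (R := ℚ))).ne_zero
    · intro x hx
      apply isUnit_FP
      rw [(mem_FP x.1).1 x.2]
      exact (hx.map (PowerSeries.constantCoeff (R := ℚ))).ne_zero
    · intro x y h1 h2
      exact Subtype.ext (Prod.ext h1 h2)
  have hCR : IsCR (Enl FP) := ⟨FP, inferInstance, Iso.refl _⟩
  refine ⟨?_, Option FP, Enl FP, hCR, not_domain (Iso.refl _), key⟩
  rintro ⟨T, hT, hT'⟩
  exact not_domain (Iso.refl _) ((hT' _ _ hCR).2 fun c hc => key c (hT c hc))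

end Pool.Agent.Results.MP_faa006_lc.NotDefinable
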